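import Mathlib
import Pool.Agent.R789.C1Curve
import Pool.Agent.R789.LogCantor

/-!
# A homeomorphism of the plane preserving `C¹` curves with uncountable non-differentiable set

Problem MP_bd3523_gt, Q1 (answer: yes).
-/

namespace Pool.Agent.Results.MP_bd3523_gt.UncountableNonDiff

open Set Filter Topology R789.C1 R789.LogMap
open scoped Manifold ContDiff

/-- There is an element `f` of `Homeo¹(ℝ²)` whose non-differentiable set is uncountable. -/
theorem result : ∃ f : ℂ ≃ₜ ℂ, Homeo1 f ∧ ¬ (nonDiff f).Countable := by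
  refine ⟨Cantor.data.homeo, ⟨?_, ?_⟩, ?_⟩
  · intro Γ hΓ
    obtain ⟨γ, hc, hd, hp, hi, rfl⟩ := isC1Curve_plane.1 hΓ
    have hi' := inj_of_injOn hp hi
    have hs : ∀ t, HasStrictDerivAt γ (deriv γ t) t := fun t =>
      hc.contDiffAt.hasStrictDerivAt one_ne_zero
    choose T hT using fun t => Cantor.sing.secDir_image (hs t) (hd t) hi'
    obtain ⟨γ', h1, h2, h3, h4, h5⟩ := R789.Sec.exists_C1_param
      (Γ := fun t => Cantor.data.homeo (γ t)) (Cantor.data.homeo.continuous.comp hc.continuous)
      (fun t => by simp only [hp]) (fun s t hst hts h => hi' s t hst hts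
        (Cantor.data.homeo.injective h)) hT
    rw [isC1Curve_plane]
    refine ⟨γ', h1, h2, h3, h4, ?_⟩
    rw [← h5, ← range_comp]
    rfl
  · intro Γ hΓ
    obtain ⟨γ, hc, hd, hp, hi, rfl⟩ := isC1Curve_plane.1 hΓ
    have hi' := inj_of_injOn hp hi
    have hs : ∀ t, HasStrictDerivAt γ (deriv γ t) t := fun t =>
      hc.contDiffAt.hasStrictDerivAt one_ne_zero
    choose T hT using fun t => Cantor.sing.secDir_preimage (hs t) (hd t) hi'
    obtain ⟨γ', h1, h2, h3, h4, h5⟩ := R789.Sec.exists_C1_param
      (Γ := fun t => Cantor.data.homeo.symm (γ t))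
      (Cantor.data.homeo.symm.continuous.comp hc.continuous)
      (fun t => by simp only [hp]) (fun s t hst hts h => hi' s t hst hts
        (Cantor.data.homeo.symm.injective h)) hT
    rw [isC1Curve_plane]
    refine ⟨γ', h1, h2, h3, h4, ?_⟩
    rw [← h5, ← range_comp]
    rfl
  · intro h
    apply Cantor.K_not_countable
    apply h.mono
    intro q hq hd
    exact Cantor.sing.not_differentiableAt hq (mdifferentiableAt_iff_differentiableAt.1 hd)

end Pool.Agent.Results.MP_bd3523_gt.UncountableNonDiff
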